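import Pool.Agent.H529R3.Gap.PH

/-!
# Exponential space in the exponential hierarchy, without `PSPACE` in the polynomial hierarchy

If `PH^A = PSPACE^A`, then, by padding, `ESPACE^A` is contained in the exponential hierarchy `EH^A`
(linear exponents). How often does the conclusion hold without the hypothesis? For every gauge `f`,
the set of the oracles `A` with `ESPACE^A ⊆ EH^A` and `PH^A ≠ PSPACE^A`, and the set of the oracles
with `ESPACE^A ⊆ EH^A` and `PSPACE^A ⊄ PH^A/poly`, are null sets for `f` if and only if for every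
`ε > 0` there are infinitely many `N` with `f N ≤ (log N) ^ ε`. (The oracles with
`PH^A = PSPACE^A` are a null set for much greater gauges.)
-/

set_option autoImplicit false

namespace Pool.Agent.Results.MP_a2d820_lc.GaugeHierarchyGap

open Pool.Agent.NPC Pool.Agent.H620R2.Gauge Pool.Agent.H622R2.Exp

theorem result (f : ℕ → ℝ) :
    (∀ O : Set Oracle,
      (∀ A : Oracle, (∀ L, InSpace Lin A L → InTime Lin A L) →
        (∃ L, IsPSPACE A L ∧ ¬ IsPHpoly A L) → A ∈ O) →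
      (∀ A ∈ O, ∀ L, InSpace Lin A L → InAlt Lin A L) →
      (Null f O ↔
        ∀ ε : ℝ, 0 < ε → ∃ᶠ N : ℕ in Filter.atTop, f N ≤ (Real.logb 2 N) ^ ε)) ∧
    (Null f {A : Oracle | (∀ L, InSpace Lin A L → InAlt Lin A L) ∧
        ¬ ∀ L, IsPH A L ↔ IsPSPACE A L} ↔
      ∀ ε : ℝ, 0 < ε → ∃ᶠ N : ℕ in Filter.atTop, f N ≤ (Real.logb 2 N) ^ ε) ∧
    (Null f {A : Oracle | (∀ L, InSpace Lin A L → InAlt Lin A L) ∧
        ∃ L, IsPSPACE A L ∧ ¬ IsPHpoly A L} ↔
      ∀ ε : ℝ, 0 < ε → ∃ᶠ N : ℕ in Filter.atTop, f N ≤ (Real.logb 2 N) ^ ε) := by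
  refine ⟨fun O => H529R3.Gap.gap_ph f O, H529R3.Gap.gap_ph f _ ?_ fun A hA => hA.1,
    H529R3.Gap.gap_ph f _ ?_ fun A hA => hA.1⟩
  · rintro A hA ⟨L, hL, hL'⟩
    exact ⟨fun L h => (hA L h).isNTime.isAlt, fun h => hL' ((h L).2 hL).isPHpoly⟩
  · rintro A hA hL
    exact ⟨fun L h => (hA L h).isNTime.isAlt, hL⟩

end Pool.Agent.Results.MP_a2d820_lc.GaugeHierarchyGap
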