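import Pool.Agent.H249R3.Sub.Main

/-!
# Sparse oracles: the bound on the density is sharp

For a sparse set `D` of strings and `A ⊆ D`, the statement `PH^A = PSPACE^A` is equivalent to
`PH = PSPACE` (Long and Selman; Balcázar, Book and Schöning). Here it is shown that this holds for
no set `D` that is not sparse, in a strong form: for every oracle `B`, if the part of `B` in `D` is
replaced by a random subset of `D`, then relative to the new oracle `A`, with probability one,
some language in parity polynomial time (and in `PSPACE`) is not in the polynomial hierarchy, not
even with polynomial advice.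
-/

namespace Pool.Agent.Results.MP_a2d820_lc.NonSparseModifications

open Pool.Agent.H249R3.Sub Pool.Agent.H620R2.Gauge
open Pool.Agent.H628R3.RO (randomOracle)

theorem result (D : Set (List Bool)) (hD : ¬ Sparse D) (B : Oracle) :
    ∀ᵐ R ∂randomOracle, ∃ L : Set (List Bool), IsParityP (patch D R B) L ∧
      IsPSPACE (patch D R B) L ∧ ¬ IsPHpoly (patch D R B) L := by
  filter_upwards [ae_patch D B hD] with R hR
  exact ⟨_, hR⟩

end Pool.Agent.Results.MP_a2d820_lc.NonSparseModifications
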