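import Pool.Agent.H554R2.RK.Par

/-!
# The parity of one-pass programs is no Boolean combination of nondeterministic programs

`⊕P` is contained in `PSPACE`, and the Boolean hierarchy over `NP` is the part of the polynomial
hierarchy below `Δ₂`.  We prove an analogue of `PSPACE ⊇ ⊕P ⊄ BH` for programs which read their
input few times: for all `k` and `s` there are functions of `n` Boolean variables which are the
parity of a constant number of functions computed by deterministic programs with `O(n)` nodes which
read the variables once, in a fixed order, while they are not given by any Boolean function of the
answers of `s` nondeterministic read-`k`-times programs with fewer than `2 ^ (n / D)` nodes.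

The functions are parities of random quadratic forms in blocks, the blocks coming from random
partitions of the variables.  The inputs accepted by a nondeterministic read-`k`-times program are
a union of few rectangles; on every large rectangle some of the forms can be changed without
changing a bounded number of other ones.

The theorem is the first part of `par_final` of the starting file
`Pool/Agent/H554R2/RK/Par.lean` (by the helpers named there and in the files it imports), which had
not been handed in.
-/

set_option autoImplicit false

namespace Pool.Agent.Results.MP_a2d820_lc.ParityVersusReadK

open Finset
open Pool.Agent.H554R2.Sem Pool.Agent.H554R2.Coin Pool.Agent.H554R2.RK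

/-- For all `k` and `s` there is a constant `D` such that for all `n ≥ D` there are `m ≤ D`
functions `q j` of `n` Boolean variables with the following properties.  Each `q j` is computed by
a deterministic branching program with at most `D n` nodes which on every input queries variables
in the same order and each of them at most once.  If `P i`, `i < s`, are nondeterministic
read-`k`-times programs with fewer than `2 ^ (n / D)` nodes and `g` is any Boolean function of
their answers, then `g` gives the wrong answer for some `x` to the question whether the number of
the `j` with `q j x = 1` is odd. -/
theorem result (k s : ℕ) : ∃ D : ℕ, 0 < D ∧ ∀ n ≥ D, ∃ (m : ℕ) (q : Fin m → Pt n → Bool), m ≤ D ∧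
    (∀ j, ∃ (U : BP (Fin n) Bool) (l : List (Fin n)), Fintype.card U.State ≤ D * n ∧ l.Nodup ∧
      ∀ x : Pt n, U.Comp x l (q j x)) ∧
    ∀ P : Fin s → NBP (Fin n), (∀ i, ReadK (P i) k) →
      (∀ i, Fintype.card (P i).State < 2 ^ (n / D)) → ∀ g : (Fin s → Prop) → Prop,
        ∃ x, ¬ (g (fun i => Acc (P i) x) ↔ Odd (univ.filter (fun j => q j x = true)).card) := by
  obtain ⟨D, hD, h⟩ := par_final k s
  refine ⟨D, hD, fun n hn => ?_⟩
  obtain ⟨m, q, hm, hq, hP, -⟩ := h n hn
  exact ⟨m, q, hm, hq, hP⟩

end Pool.Agent.Results.MP_a2d820_lc.ParityVersusReadK
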