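import Pool.Agent.H334R5.Ph.FinalPS

/-!
# The polynomial hierarchy and PSPACE: refuting one threshold pattern

The theorem says that `PSPACE = PH` if and only if, for some `PSPACE`-hard set `A`, some relation
`R(L, j)` in the polynomial hierarchy refutes, for every list `L = x₁, …, xₘ` of polynomially many
strings which has a threshold pattern (exactly the first `i` strings are in `A`), one statement
of the form: exactly the first `j` strings of `L` are in `A`; and the same for every level.

Polynomial time and space are measured with Mathlib's `Turing.FinTM2` (through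
`Pool.Agent.NPC.PolyTime` and `Pool.Agent.H623R2.PS.InPSPACE`). `Sig` and `SigRefuter2` are in
`Pool.Agent.H334R5.Ph.Defs`, and `Pattern` is in `Pool.Agent.H334R5.Nd.Defs`.
-/

set_option autoImplicit false

namespace Pool.Agent.Results.MP_a2d820_lc.RefutersPH

open Pool.Agent.H623R2.PS Pool.Agent.H334R5.Ph

/-- `PSPACE ⊆ PH` if and only if threshold patterns of some `PSPACE`-hard set can be refuted in the
polynomial hierarchy, and `PSPACE ⊆ Σ_{k+1}` if and only if they can be refuted in `Σ_{k+1}`. -/
theorem result :
    ((∃ (A : Set (List Bool)) (q : Polynomial ℕ) (k : ℕ) (R : List (List Bool) → ℕ → Prop),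
      PSPACEHard A ∧ SigRefuter2 k A q R) ↔
        ∀ L : Set (List Bool), InPSPACE L → ∃ k, Sig k L) ∧
    ∀ k : ℕ, (∃ (A : Set (List Bool)) (q : Polynomial ℕ) (R : List (List Bool) → ℕ → Prop),
      PSPACEHard A ∧ SigRefuter2 (k + 1) A q R) ↔
        ∀ L : Set (List Bool), InPSPACE L → Sig (k + 1) L :=
  ⟨pspace_ph_iff, pspace_sig_iff⟩

end Pool.Agent.Results.MP_a2d820_lc.RefutersPH
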